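import Mathlib

set_option autoImplicit false

namespace Pool.Agent.Results.MP_2107e4_co.Strict

open Finset

/-- A comma-free set of words of length `k`. -/
def CommaFree {A : Type} (k : ℕ) (D : Finset (List A)) : Prop :=
  (∀ w ∈ D, w.length = k) ∧
    ∀ a ∈ D, ∀ b ∈ D, ∀ i, 1 ≤ i → i ≤ k - 1 → a.drop i ++ b.take i ∉ D

/-- `W_k(n)`: the largest size of a comma-free set of words of length `k` on `n` letters. -/
noncomputable def W (k n : ℕ) : ℕ :=
  sSup {c | ∃ D : Finset (List (Fin n)), CommaFree k D ∧ D.card = c}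

section
variable {A : Type} [Fintype A] [DecidableEq A]

def words (A : Type) [Fintype A] [DecidableEq A] : ℕ → Finset (List A)
  | 0 => {[]}
  | m + 1 => (univ ×ˢ words A m).map ⟨fun p => p.1 :: p.2, by
      rintro ⟨a, x⟩ ⟨b, y⟩ h
      simp only [List.cons.injEq] at h
      exact Prod.ext h.1 h.2⟩

lemma mem_words : ∀ (m : ℕ) (w : List A), w ∈ words A m ↔ w.length = m
  | 0, w => by simp [words]
  | m + 1, w => by
    cases w with
    | nil => simp [words]
    | cons a x => simp [words, mem_words m]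

lemma sum_words (m : ℕ) (F : List A → ℝ) :
    ∑ w ∈ words A (m + 1), F w = ∑ a : A, ∑ x ∈ words A m, F (a :: x) := by
  rw [words, sum_map, sum_product]; rfl

lemma card_words : ∀ m : ℕ, (words A m).card = Fintype.card A ^ m
  | 0 => by simp [words]
  | m + 1 => by rw [words, card_map, card_product, card_words m, card_univ, pow_succ']

/-- product of `f` over all mixtures of `x` and `y` -/
def box : (List A → ℝ) → List A → List A → ℝ
  | f, a :: x, b :: y => box (fun z => f (a :: z) * f (b :: z)) x y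
  | f, _, _ => f []

lemma box_ge (hA : 0 < Fintype.card A) : ∀ (m : ℕ) (f : List A → ℝ) (δ : ℝ), (∀ z, 0 ≤ f z) →
    0 ≤ δ → δ * (Fintype.card A : ℝ) ^ m ≤ ∑ z ∈ words A m, f z →
    δ ^ (2 ^ m) * (Fintype.card A : ℝ) ^ (2 * m) ≤
      ∑ x ∈ words A m, ∑ y ∈ words A m, box f x y
  | 0, f, δ, _, _, h => by simpa [words, box] using h
  | m + 1, f, δ, hf, hδ, h => by
    set n : ℝ := (Fintype.card A : ℝ) with hn
    have hn0 : 0 < n := by rw [hn]; exact_mod_cast hA
    set d : A × A → ℝ := fun p => (∑ z ∈ words A m, f (p.1 :: z) * f (p.2 :: z)) / n ^ m with hd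
    have hd0 : ∀ p, 0 ≤ d p := fun p =>
      div_nonneg (sum_nonneg fun z _ => mul_nonneg (hf _) (hf _)) (by positivity)
    have e1 : ∑ x ∈ words A (m + 1), ∑ y ∈ words A (m + 1), box f x y =
        ∑ p : A × A, ∑ x ∈ words A m, ∑ y ∈ words A m,
          box (fun z => f (p.1 :: z) * f (p.2 :: z)) x y := by
      rw [sum_words, Fintype.sum_prod_type]
      refine sum_congr rfl fun a _ => ?_
      simp_rw [sum_words]
      rw [sum_comm]
      rfl
    have h1 : ∑ p : A × A, d p ^ (2 ^ m) * n ^ (2 * m) ≤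
        ∑ x ∈ words A (m + 1), ∑ y ∈ words A (m + 1), box f x y := by
      rw [e1]
      refine sum_le_sum fun p _ => ?_
      refine box_ge hA m _ _ (fun z => mul_nonneg (hf _) (hf _)) (hd0 p) ?_
      rw [hd, ← hn, div_mul_cancel₀ _ (by positivity)]
    have h2 : δ ^ 2 * n ^ 2 ≤ ∑ p : A × A, d p := by
      have e2 : ∑ p : A × A, d p = (∑ z ∈ words A m, (∑ a : A, f (a :: z)) ^ 2) / n ^ m := by
        rw [hd, ← sum_div, sum_comm]
        congr 1
        refine sum_congr rfl fun z _ => ?_
        rw [Fintype.sum_prod_type, sq, sum_mul_sum]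
      have h3 := sq_sum_le_card_mul_sum_sq (s := words A m) (f := fun z => ∑ a : A, f (a :: z))
      rw [sum_words, sum_comm] at h
      rw [card_words, Nat.cast_pow, ← hn] at h3
      have h4 : (δ * n ^ (m + 1)) ^ 2 ≤ _ := (pow_le_pow_left₀ (by positivity) h 2).trans h3
      rw [e2, le_div_iff₀ (by positivity)]
      refine le_of_mul_le_mul_left (a := n ^ m) ?_ (by positivity)
      refine le_trans (le_of_eq ?_) h4
      ring
    obtain ⟨q, hq⟩ : ∃ q, 2 ^ m = q + 1 := ⟨2 ^ m - 1, by have := Nat.one_le_two_pow (n := m); omega⟩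
    have h5 := pow_sum_le_card_mul_sum_pow (s := (univ : Finset (A × A))) (f := d)
      (fun p _ => hd0 p) q
    rw [card_univ, Fintype.card_prod, Nat.cast_mul, ← hn] at h5
    have h6 := (pow_le_pow_left₀ (by positivity) h2 (q + 1)).trans h5
    refine le_trans ?_ h1
    rw [← sum_mul, pow_succ 2 m, hq]
    have h7 : δ ^ ((q + 1) * 2) * n ^ 2 ≤ ∑ p : A × A, d p ^ (q + 1) := by
      refine le_of_mul_le_mul_left (a := (n * n) ^ q) ?_ (by positivity)
      refine le_trans (le_of_eq ?_) h6
      ring
    calc δ ^ ((q + 1) * 2) * n ^ (2 * (m + 1)) = δ ^ ((q + 1) * 2) * n ^ 2 * n ^ (2 * m) := by ring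
      _ ≤ _ := mul_le_mul_of_nonneg_right h7 (by positivity)

omit [Fintype A] [DecidableEq A] in
lemma box_01 : ∀ (x y : List A) (f : List A → ℝ), (∀ z, f z = 0 ∨ f z = 1) →
    x.length = y.length → box f x y = 0 ∨ (box f x y = 1 ∧
      ∀ s, f (x.take s ++ y.drop s) = 1 ∧ f (y.take s ++ x.drop s) = 1)
  | [], [], f, hf, _ => by
    rcases hf [] with h | h
    · left; simpa [box] using h
    · right; simpa [box] using h
  | [], _ :: _, _, _, h => by simp at h
  | _ :: _, [], _, _, h => by simp at h
  | a :: x, b :: y, f, hf, h => by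
    have hg : ∀ z, f (a :: z) * f (b :: z) = 0 ∨ f (a :: z) * f (b :: z) = 1 := by
      intro z
      rcases hf (a :: z) with h1 | h1 <;> rcases hf (b :: z) with h2 | h2 <;> simp [h1, h2]
    have hg' : ∀ z, f (a :: z) * f (b :: z) = 1 → f (a :: z) = 1 ∧ f (b :: z) = 1 := by
      intro z
      rcases hf (a :: z) with h1 | h1 <;> rcases hf (b :: z) with h2 | h2 <;> simp [h1, h2]
    rcases box_01 x y _ hg (by simpa using h) with h1 | ⟨h1, h2⟩
    · left; exact h1
    · right
      refine ⟨h1, fun s => ?_⟩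
      cases s with
      | zero => exact ⟨(hg' _ (h2 0).1).2, (hg' _ (h2 0).2).1⟩
      | succ s => exact ⟨(hg' _ (h2 s).1).1, (hg' _ (h2 s).2).2⟩

open Classical in
/-- the type of a half word -/
noncomputable def ty (m : ℕ) (D : Finset (List A)) (u : List A) : Bool × Bool :=
  (decide (∃ v, u ++ v ∈ D), decide (∃ v : List A, v.length = m ∧ v ++ u ∈ D))

omit [Fintype A] [DecidableEq A] in
lemma ty_ne {m : ℕ} (hm : 1 ≤ m) {D : Finset (List A)} (hD : CommaFree (2 * m) D) {b c : List A}
    (hb : b.length = m) (hc : c.length = m) (h : b ++ c ∈ D) : ty m D b ≠ ty m D c := by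
  intro he
  simp only [ty, Prod.mk.injEq, decide_eq_decide] at he
  obtain ⟨d, hd⟩ := he.1.1 ⟨c, h⟩
  obtain ⟨a, ha, ha'⟩ := he.2.2 ⟨b, hb, h⟩
  apply hD.2 _ ha' _ hd m hm (by omega)
  rw [List.drop_left' ha, List.take_left' hc]
  exact h

omit [Fintype A] [DecidableEq A] in
lemma rot_half (x y : List A) (s : ℕ) (hxy : x.length = y.length) (hs : s ≤ x.length) :
    (x ++ y).rotate s = (y.take s ++ x.drop s).rotate s ++ (x.take s ++ y.drop s).rotate s := by
  have l1 : (y.take s).length = s := by simp; omega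
  have l2 : (x.take s).length = s := by simp; omega
  rw [List.rotate_eq_drop_append_take (by simp; omega),
    List.rotate_eq_drop_append_take (by simp; omega),
    List.rotate_eq_drop_append_take (by simp; omega),
    List.drop_left' l1, List.take_left' l1, List.drop_left' l2, List.take_left' l2,
    List.drop_append_of_le_length hs, List.take_append_of_le_length hs]
  simp only [List.append_assoc]
  rw [← List.append_assoc (y.take s), List.take_append_drop]

lemma main {m : ℕ} (hm : 1 ≤ m) (hA : 0 < Fintype.card A) {D : Finset (List A)}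
    (hD : CommaFree (2 * m) D) :
    (2 * m : ℝ) * D.card + ((1 / 4 ^ m : ℝ)) ^ (2 ^ m) * (Fintype.card A : ℝ) ^ (2 * m) ≤
      (Fintype.card A : ℝ) ^ (2 * m) := by
  classical
  set T : List A → Fin m → Bool × Bool := fun z s => ty m D (z.rotate s) with hT
  obtain ⟨t, -, ht⟩ := exists_le_card_fiber_of_nsmul_le_card_of_maps_to (s := words A m)
    (t := (univ : Finset (Fin m → Bool × Bool))) (f := T)
    (b := (1 / 4 ^ m : ℝ) * (Fintype.card A : ℝ) ^ m) (fun _ _ => mem_univ _) univ_nonempty (by
      rw [card_words, card_univ, Fintype.card_fun]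
      simp only [Fintype.card_prod, Fintype.card_bool, Fintype.card_fin, nsmul_eq_mul]
      push_cast
      field_simp
      exact le_rfl)
  set f : List A → ℝ := fun z => if T z = t then 1 else 0 with hf
  have h01 : ∀ z, f z = 0 ∨ f z = 1 := by
    intro z; by_cases h : T z = t <;> simp [hf, h]
  have hb := box_ge hA m f (1 / 4 ^ m) (fun z => by rcases h01 z with h | h <;> simp [h])
    (by positivity) (by rw [hf, sum_boole]; exact ht)
  set B := (words A m ×ˢ words A m).filter fun p => box f p.1 p.2 = 1 with hB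
  have hB1 : ∑ x ∈ words A m, ∑ y ∈ words A m, box f x y ≤ B.card := by
    rw [← sum_product', hB, ← sum_boole]
    refine sum_le_sum fun p hp => ?_
    have hp' := mem_product.1 hp
    rcases box_01 p.1 p.2 f h01 (by rw [(mem_words _ _).1 hp'.1, (mem_words _ _).1 hp'.2]) with
      h | h
    · rw [h]; simp
    · rw [h.1]; simp
  set B' := B.image fun p => p.1 ++ p.2 with hB'
  have hlen : ∀ p ∈ B, p.1.length = m ∧ p.2.length = m := by
    intro p hp
    have := mem_product.1 (mem_filter.1 hp).1
    exact ⟨(mem_words _ _).1 this.1, (mem_words _ _).1 this.2⟩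
  have cB' : B'.card = B.card := by
    apply card_image_of_injOn
    intro p hp q hq h
    have := List.append_inj h (by rw [(hlen p hp).1, (hlen q hq).1])
    exact Prod.ext this.1 this.2
  set R := (D ×ˢ range (2 * m)).image fun p => p.1.rotate p.2 with hR
  have key : ∀ w ∈ D, ∀ w' ∈ D, ∀ i j, i < j → j < 2 * m → w.rotate i ≠ w'.rotate j := by
    intro w hw w' hw' i j hij hj h
    have h1 : w = w'.rotate (j - i) := by
      rw [← List.rotate_eq_rotate (n := i), List.rotate_rotate, h]
      congr 1; omega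
    apply hD.2 w' hw' w' hw' (j - i) (by omega) (by omega)
    rw [← List.rotate_eq_drop_append_take (by rw [hD.1 w' hw']; omega), ← h1]
    exact hw
  have cR : R.card = D.card * (2 * m) := by
    rw [hR, card_image_of_injOn, card_product, card_range]
    rintro ⟨w, i⟩ hp ⟨w', j⟩ hq h
    simp only [coe_product, Set.mem_prod, mem_coe, mem_range] at hp hq
    rcases lt_trichotomy i j with hij | rfl | hij
    · exact absurd h (key w hp.1 w' hq.1 i j hij hq.2)
    · exact Prod.ext (List.rotate_eq_rotate.1 h) rfl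
    · exact absurd h.symm (key w' hq.1 w hp.1 j i hij hp.2)
  have nrot : ∀ x y : List A, x.length = m → y.length = m →
      (∀ s, f (x.take s ++ y.drop s) = 1 ∧ f (y.take s ++ x.drop s) = 1) →
      ∀ s < m, (x ++ y).rotate s ∉ D := by
    intro x y hx hy h s hs hmem
    rw [rot_half x y s (by omega) (by omega)] at hmem
    apply ty_ne hm hD (by simp; omega) (by simp; omega) hmem
    have g : ∀ z, f z = 1 → ty m D (z.rotate s) = t ⟨s, hs⟩ := by
      intro z hz
      have : T z = t := by
        by_contra hne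
        simp [hf, hne] at hz
      exact congrFun this ⟨s, hs⟩
    rw [g _ (h s).1, g _ (h s).2]
  have hdisj : Disjoint R B' := by
    rw [disjoint_left]
    intro w hw hw'
    obtain ⟨⟨v, i⟩, hp, rfl⟩ := mem_image.1 hw
    obtain ⟨⟨x, y⟩, hq, he⟩ := mem_image.1 hw'
    have hv := (mem_product.1 hp).1
    have hi : i < 2 * m := mem_range.1 (mem_product.1 hp).2
    obtain ⟨hx, hy⟩ := hlen _ hq
    simp only at hx hy he hv
    have hxy := (box_01 x y f h01 (by omega)).resolve_left (by
      rw [(mem_filter.1 hq).2]; exact one_ne_zero)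
    have hv2 : ∀ j, (i + j) % (2 * m) = 0 → (x ++ y).rotate j ∈ D := by
      intro j hj
      rw [he, List.rotate_rotate, ← List.rotate_mod, hD.1 v hv, hj, List.rotate_zero]
      exact hv
    rcases Nat.eq_zero_or_pos i with rfl | hi0
    · exact nrot x y hx hy hxy.2 0 (by omega) (hv2 0 (by simp))
    · have h3 := hv2 (2 * m - i) (by rw [show i + (2 * m - i) = 2 * m by omega, Nat.mod_self])
      by_cases hc : 2 * m - i < m
      · exact nrot x y hx hy hxy.2 _ hc h3
      · apply nrot y x hy hx (fun s => (hxy.2 s).symm) (m - i) (by omega)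
        rw [← List.rotate_append_length_eq x y, List.rotate_rotate, hx,
          show m + (m - i) = 2 * m - i by omega]
        exact h3
  have hsub : R ∪ B' ⊆ words A (2 * m) := by
    intro w hw
    rw [mem_words]
    rcases mem_union.1 hw with hw | hw
    · obtain ⟨p, hp, rfl⟩ := mem_image.1 hw
      rw [List.length_rotate, hD.1 _ (mem_product.1 hp).1]
    · obtain ⟨p, hp, rfl⟩ := mem_image.1 hw
      rw [List.length_append, (hlen p hp).1, (hlen p hp).2]; ring
  have hc := card_le_card hsub
  rw [card_union_of_disjoint hdisj, cR, cB', card_words] at hc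
  have hc' : (D.card : ℝ) * (2 * m) + B.card ≤ (Fintype.card A : ℝ) ^ (2 * m) := by
    exact_mod_cast hc
  linarith

end

theorem result (m : ℕ) (hm : 1 ≤ m) :
    (∀ n : ℕ, (W (2 * m) n : ℝ) ≤ (1 - (1 / 4 ^ m) ^ (2 ^ m)) / (2 * m) * (n : ℝ) ^ (2 * m)) ∧
    ∀ α : ℝ, Filter.Tendsto (fun n : ℕ => (W (2 * m) n : ℝ) / (n : ℝ) ^ (2 * m))
      Filter.atTop (nhds α) → α < 1 / (2 * m) := by
  have hm' : (0 : ℝ) < 2 * m := by positivity
  have hc1 : ((1 / 4 ^ m : ℝ)) ^ (2 ^ m) ≤ 1 :=
    pow_le_one₀ (by positivity) (by rw [div_le_one (by positivity)]; exact one_le_pow₀ (by norm_num))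
  have hc0 : 0 < ((1 / 4 ^ m : ℝ)) ^ (2 ^ m) := by positivity
  have h1 : ∀ n : ℕ,
      (W (2 * m) n : ℝ) ≤ (1 - (1 / 4 ^ m) ^ (2 ^ m)) / (2 * m) * (n : ℝ) ^ (2 * m) := by
    intro n
    have hbd : BddAbove {c | ∃ D : Finset (List (Fin n)), CommaFree (2 * m) D ∧ D.card = c} := by
      refine ⟨(words (Fin n) (2 * m)).card, ?_⟩
      rintro c ⟨D, hD, rfl⟩
      exact card_le_card fun w hw => (mem_words _ _).2 (hD.1 w hw)
    obtain ⟨D, hD, hc⟩ := Nat.sSup_mem (s := {c | ∃ D : Finset (List (Fin n)),
      CommaFree (2 * m) D ∧ D.card = c}) ⟨0, ∅, ⟨by simp, by simp⟩, rfl⟩ hbd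
    rw [W, ← hc]
    rcases Nat.eq_zero_or_pos n with rfl | hn
    · have : D = ∅ := by
        rw [eq_empty_iff_forall_notMem]
        intro w hw
        have := hD.1 w hw
        cases w with
        | nil => simp at this; omega
        | cons a _ => exact a.elim0
      rw [this, card_empty, Nat.cast_zero]
      exact mul_nonneg (div_nonneg (by linarith) hm'.le) (by positivity)
    · have := main hm (by simpa using hn) hD
      rw [Fintype.card_fin] at this
      rw [div_mul_eq_mul_div, le_div_iff₀ hm']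
      linarith
  refine ⟨h1, fun α hα => ?_⟩
  have h2 : α ≤ (1 - (1 / 4 ^ m) ^ (2 ^ m)) / (2 * m) := by
    refine le_of_tendsto hα ?_
    filter_upwards [Filter.eventually_gt_atTop 0] with n hn
    rw [div_le_iff₀ (by positivity)]
    exact h1 n
  exact h2.trans_lt (div_lt_div_of_pos_right (by linarith) hm')

end Pool.Agent.Results.MP_2107e4_co.Strict
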